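import Pool.Agent.H68.LCS.Targets

/-!
# Board lpq_modules, row A_FSG: countable unions of closed sets
-/

set_option autoImplicit false

open Set Filter Topology
open scoped Pointwise

namespace Pool.Agent.H36.LCS

open Pool.Agent.H93.CP Pool.Agent.H7.LP Pool.Agent.H7.LQ Pool.Agent.H68.LCS

/-- **Row FSG.** -/
theorem pf_FSG (h1 : T_PRJ) : T_FSG := by
  refine ⟨?_, ?_, ?_, ?_, ?_⟩
  · intro A _ E hE
    exact ⟨fun _ => E, fun _ => hE, (Set.iUnion_const E).symm⟩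
  · rintro A _ E E' ⟨f, hf, rfl⟩ ⟨f', hf', rfl⟩
    refine ⟨⟨fun n => f n ∪ f' n, fun n => (hf n).union (hf' n), ?_⟩,
      ⟨fun n => f n.unpair.1 ∩ f' n.unpair.2, fun n => (hf _).inter (hf' _), ?_⟩⟩
    · exact (Set.iUnion_union_distrib f f').symm
    · ext a
      constructor
      · rintro ⟨h2, h3⟩
        obtain ⟨i, hi⟩ := Set.mem_iUnion.1 h2
        obtain ⟨j, hj⟩ := Set.mem_iUnion.1 h3
        refine Set.mem_iUnion.2 ⟨Nat.pair i j, ?_, ?_⟩
        · rw [Nat.unpair_pair]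
          exact hi
        · rw [Nat.unpair_pair]
          exact hj
      · intro h2
        obtain ⟨n, hn⟩ := Set.mem_iUnion.1 h2
        exact ⟨Set.mem_iUnion.2 ⟨_, hn.1⟩, Set.mem_iUnion.2 ⟨_, hn.2⟩⟩
  · intro A _ _ _ E hE
    let _ : MetricSpace A := TopologicalSpace.metrizableSpaceMetric A
    obtain ⟨f, hf, -, hf', -⟩ := hE.exists_iUnion_isClosed
    exact ⟨f, hf, hf'.symm⟩
  · rintro A _ _ _ E ⟨f, hf, rfl⟩
    exact MeasurableSet.iUnion fun n => (hf n).measurableSet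
  · rintro A S _ _ N E hN ⟨f, hf, rfl⟩
    refine ⟨fun n => {a | ∃ g ∈ N, (a, g) ∈ f n}, fun n => h1 A S N (f n) hN (hf n), ?_⟩
    ext a
    constructor
    · rintro ⟨g, hg, h2⟩
      obtain ⟨n, hn⟩ := Set.mem_iUnion.1 h2
      exact Set.mem_iUnion.2 ⟨n, g, hg, hn⟩
    · intro h2
      obtain ⟨n, g, hg, hn⟩ := Set.mem_iUnion.1 h2
      exact ⟨g, hg, Set.mem_iUnion.2 ⟨n, hn⟩⟩

end Pool.Agent.H36.LCS
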