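import Pool.Agent.H68.LCS.Targets

/-!
# Board lpq_modules, row A_HIT: hits of the sets of solutions
-/

set_option autoImplicit false

open Set Filter Topology
open scoped Pointwise

namespace Pool.Agent.H36.LCS

open Pool.Agent.H93.CP Pool.Agent.H7.LP Pool.Agent.H7.LQ Pool.Agent.H68.LCS

/-- **Row HIT.** -/
theorem pf_HIT (h1 : T_PRJ) (h2 : T_DMR) : Pool.Agent.H68.LCS.T_HIT := by
  intro Γ F _ _ _ _ _ _ _ _ _ _ _ D f U hf hU
  obtain ⟨E, hE, h3, h4⟩ := h2 Γ F D U hU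
  have e : {y : F | ∃ γ ∈ U, γ • y = f y} = ⋃ m, {y : F | ∃ γ ∈ E m, γ • y = f y} := by
    ext y
    constructor
    · rintro ⟨u, hu, h5⟩
      obtain ⟨m, γ, hγ, h6⟩ := h4 u hu
      refine Set.mem_iUnion.2 ⟨m, γ, hγ, ?_⟩
      rw [← h6 y, h5]
    · intro h5
      obtain ⟨m, γ, hγ, h6⟩ := Set.mem_iUnion.1 h5
      obtain ⟨u, hu, h7⟩ := h3 m γ hγ
      exact ⟨u, hu, by rw [← h7 y, h6]⟩
  rw [e]
  refine MeasurableSet.iUnion fun m => ?_
  have hc : IsClosed {q : (F × F) × Γ | q.2 • q.1.1 = q.1.2} := by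
    refine isClosed_eq ?_ ?_
    · exact continuous_snd.smul (continuous_fst.comp continuous_fst)
    · exact continuous_snd.comp continuous_fst
  have h5 := h1 (F × F) Γ (E m) _ (hE m) hc
  have h6 : Measurable fun y : F => (y, f y) := measurable_id.prodMk hf
  exact h6 h5.measurableSet

end Pool.Agent.H36.LCS
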