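import Pool.Agent.H68.LCS.Targets

/-!
# Board lpq_modules, row A_YME: the sets `YY` are Borel
-/

set_option autoImplicit false

open Set Filter Topology
open scoped Pointwise

namespace Pool.Agent.H36.LCS

open Pool.Agent.H93.CP Pool.Agent.H7.LP Pool.Agent.H7.LQ Pool.Agent.H68.LCS

/-- **Row YME.** -/
theorem pf_YME (h1 : T_PRJ) (h2 : T_FSG) (h3 : T_KCP) : T_YME := by
  intro Γ F _ _ _ _ _ _ _ _ _ _ _ D B t
  have _ := h3
  obtain ⟨g1, g2, g3, g4, g5⟩ := h2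
  have hC : IsCompact D.C := ((D.cpt 0).union (D.cpt 0).inv).union isCompact_singleton
  have hC3 : IsCompact (D.C * D.C * D.C) := (hC.mul hC).mul hC
  have c1 : Continuous fun a : F × Γ => a.2 • a.1 := continuous_snd.smul continuous_fst
  have c2 : Continuous fun a : (F × Γ) × Γ => a.2 • a.1.2 • a.1.1 :=
    continuous_snd.smul (c1.comp continuous_fst)
  have c3 : Continuous fun a : ((F × Γ) × Γ) × Γ => a.1.2 • a.1.1.2 • a.1.1.1 :=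
    c2.comp continuous_fst
  have c4 : Continuous fun a : ((F × Γ) × Γ) × Γ => a.2 • a.1.1.2 • a.1.1.1 :=
    continuous_snd.smul (c1.comp (continuous_fst.comp continuous_fst))
  have k1 : IsClosed {a : F × Γ | a.2 • a.1 ∉ B.U t} := ((B.opn t).preimage c1).isClosed_compl
  have k2 : IsClosed {a : (F × Γ) × Γ | a.2 • a.1.2 • a.1.1 ∈ closure (B.U t)} :=
    isClosed_closure.preimage c2
  have k3 : IsClosed {a : (F × Γ) × Γ | ∃ c ∈ D.C, (a, c) ∈ {q : ((F × Γ) × Γ) × Γ |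
      q.1.2 • q.1.1.2 • q.1.1.1 = q.2 • q.1.1.2 • q.1.1.1}} :=
    h1 ((F × Γ) × Γ) Γ D.C _ hC (isClosed_eq c3 c4)
  have f2 : FS {a : F × Γ | ∃ h ∈ D.C * D.C * D.C, (a, h) ∈
      {a : (F × Γ) × Γ | a.2 • a.1.2 • a.1.1 ∈ closure (B.U t)} ∩
      {a : (F × Γ) × Γ | ∃ c ∈ D.C, (a, c) ∈ {q : ((F × Γ) × Γ) × Γ |
      q.1.2 • q.1.1.2 • q.1.1.1 = q.2 • q.1.1.2 • q.1.1.1}}ᶜ} :=
    g5 (F × Γ) Γ _ _ hC3 (g2 _ _ _ (g1 _ _ k2) (g3 _ _ k3.isOpen_compl)).2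
  have f3 := (g2 _ _ _ (g1 _ _ k1) f2).1
  have e : YY D B t = ⋃ p, {y : F | ∃ g ∈ D.N p, (y, g) ∈ {a : F × Γ | a.2 • a.1 ∉ B.U t} ∪
      {a : F × Γ | ∃ h ∈ D.C * D.C * D.C, (a, h) ∈
      {a : (F × Γ) × Γ | a.2 • a.1.2 • a.1.1 ∈ closure (B.U t)} ∩
      {a : (F × Γ) × Γ | ∃ c ∈ D.C, (a, c) ∈ {q : ((F × Γ) × Γ) × Γ |
      q.1.2 • q.1.1.2 • q.1.1.1 = q.2 • q.1.1.2 • q.1.1.1}}ᶜ}}ᶜ := by
    ext y
    rw [Set.mem_iUnion]
    refine exists_congr fun p => ?_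
    constructor
    · rintro h4 ⟨g, hg, h5 | ⟨h, hh, h5, h6⟩⟩
      · exact h5 (h4 g hg).1
      · obtain ⟨c, hc, h7⟩ := (h4 g hg).2 h hh h5
        exact h6 ⟨c, hc, h7⟩
    · intro h4 g hg
      by_contra h5
      refine h4 ⟨g, hg, ?_⟩
      by_cases h6 : g • y ∈ B.U t
      · right
        by_contra h7
        refine h5 ⟨h6, fun h hh h8 => ?_⟩
        by_contra h9
        exact h7 ⟨h, hh, h8, h9⟩
      · exact Or.inl h6
  rw [e]
  refine MeasurableSet.iUnion fun p => MeasurableSet.compl (g4 _ _ ?_)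
  exact g5 F Γ (D.N p) _ (D.cpt p) f3

end Pool.Agent.H36.LCS
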